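import Mathlib
import Pool.Agent.Helper39.StackDef
import Pool.Agent.Helper39.StackGrow

set_option autoImplicit false

namespace Pool.Agent.Results.MP_8acafb_co.QuadGrowth

open Filter
open scoped ENNReal
open Pool.Agent.Helper39.StackDef

/-- The exponential growth rate of the numbers `W t n` of `t`-stack sortable permutations, as a
lower limit with values in `[0, ∞]` (the limit is known to exist). -/
noncomputable def growthRate (t : ℕ) : ℝ≥0∞ :=
  liminf (fun n : ℕ => (W t n : ℝ≥0∞) ^ ((1 : ℝ) / n)) atTop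

/-- For every `t ≥ 1` the growth rate of the `t`-stack sortable permutations is at least
`t ((t-1)!)^(1/t)`, which is asymptotic to `t² / e`, and at least `t² / 3`. -/
theorem result (t : ℕ) (ht : 1 ≤ t) :
    ENNReal.ofReal ((t : ℝ) * ((t - 1).factorial : ℝ) ^ ((1 : ℝ) / t)) ≤ growthRate t ∧
      ENNReal.ofReal ((t : ℝ) ^ 2 / 3) ≤ growthRate t := by
  obtain ⟨s, rfl⟩ : ∃ s, t = s + 1 := ⟨t - 1, by omega⟩
  have h := Pool.Agent.Helper39.StackGrow.growth_liminf s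
  have h1 : ENNReal.ofReal (((s + 1 : ℕ) : ℝ) * ((s + 1 - 1).factorial : ℝ) ^ ((1 : ℝ) / ((s + 1 : ℕ) : ℝ)))
      ≤ growthRate (s + 1) := by
    rw [Nat.add_sub_cancel]
    push_cast
    exact h
  refine ⟨h1, le_trans (ENNReal.ofReal_le_ofReal ?_) h1⟩
  rw [Nat.add_sub_cancel]
  have h2 : (((s + 1 : ℕ) : ℝ) / 3) ≤ (s.factorial : ℝ) ^ ((1 : ℝ) / ((s + 1 : ℕ) : ℝ)) := by
    have h3 : (((s + 1 : ℕ) : ℝ) / 3) ^ (s + 1) ≤ (s.factorial : ℝ) := by
      rw [div_pow, div_le_iff₀ (by positivity)]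
      have := Pool.Agent.Helper39.StackGrow.third s
      calc (((s + 1 : ℕ) : ℝ)) ^ (s + 1) = (((s + 1) ^ (s + 1) : ℕ) : ℝ) := by push_cast; ring
        _ ≤ ((3 ^ (s + 1) * s.factorial : ℕ) : ℝ) := by exact_mod_cast this
        _ = (s.factorial : ℝ) * 3 ^ (s + 1) := by push_cast; ring
    calc (((s + 1 : ℕ) : ℝ) / 3)
        = ((((s + 1 : ℕ) : ℝ) / 3) ^ (s + 1)) ^ ((1 : ℝ) / ((s + 1 : ℕ) : ℝ)) := by
          rw [one_div, Real.pow_rpow_inv_natCast (by positivity) (by omega)]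
      _ ≤ (s.factorial : ℝ) ^ ((1 : ℝ) / ((s + 1 : ℕ) : ℝ)) :=
          Real.rpow_le_rpow (by positivity) h3 (by positivity)
  calc (((s + 1 : ℕ) : ℝ)) ^ 2 / 3 = ((s + 1 : ℕ) : ℝ) * (((s + 1 : ℕ) : ℝ) / 3) := by ring
    _ ≤ _ := mul_le_mul_of_nonneg_left h2 (by positivity)

end Pool.Agent.Results.MP_8acafb_co.QuadGrowth
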